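import Pool.Agent.Helper18.ZN5

set_option autoImplicit false

namespace Pool.Agent.Results.MP_217de7_gt.BanachMazurGap

open Set Topology Filter
open scoped Pointwise

/-- A zonotope in `E` is a finite Minkowski sum of line segments `[a i, b i]`. -/
def IsZonotope {E : Type} [NormedAddCommGroup E] [InnerProductSpace ℝ E] (P : Set E) : Prop :=
  ∃ (k : ℕ) (a b : Fin k → E),
    P = {x | ∃ y : Fin k → E, (∀ i, y i ∈ segment ℝ (a i) (b i)) ∧ x = ∑ i, y i}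

/-- A zonoid, in the sense of the problem file: symmetric about the origin, with nonempty
interior, compact, and a limit in the Hausdorff metric of zonotopes. -/
def IsZonoid {E : Type} [NormedAddCommGroup E] [InnerProductSpace ℝ E] (Z : Set E) : Prop :=
  (∀ x ∈ Z, -x ∈ Z) ∧ (interior Z).Nonempty ∧ IsCompact Z ∧
    ∃ P : ℕ → Set E, (∀ k, IsZonotope (P k)) ∧
      Tendsto (fun k => Metric.hausdorffEDist (P k) Z) atTop (𝓝 0)

/-- The polar body `{y | ⟪x, y⟫ ≤ 1 for all x ∈ K}`. -/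
def polar {E : Type} [NormedAddCommGroup E] [InnerProductSpace ℝ E] (K : Set E) : Set E :=
  {y | ∀ x ∈ K, inner ℝ x y ≤ (1 : ℝ)}

/-- The Banach-Mazur distance `inf {lam ≥ 1 : L ⊆ T K ⊆ lam L for some T ∈ GL}`. -/
noncomputable def bmDist {E : Type} [NormedAddCommGroup E] [InnerProductSpace ℝ E]
    (K L : Set E) : ℝ :=
  sInf {lam : ℝ | 1 ≤ lam ∧ ∃ T : E ≃ₗ[ℝ] E, L ⊆ T '' K ∧ T '' K ⊆ lam • L}

open Pool.Agent.Helper18 in
/-- The example, in each dimension `n ≥ 2`. -/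
theorem main (n : ℕ) (hn : 2 ≤ n) : ∃ Z : Set (EuclideanSpace ℝ (Fin n)),
    IsZonoid Z ∧ IsZonoid (polar Z) ∧ √(9/8) ≤ bmDist Z (Metric.closedBall 0 1) := by
  let e : EuclideanSpace ℝ (Fin n) := EuclideanSpace.single ⟨0, by omega⟩ 1
  let f : EuclideanSpace ℝ (Fin n) := EuclideanSpace.single ⟨1, by omega⟩ 1
  have he : ‖e‖ = 1 := by simp [e]
  have hf : ‖f‖ = 1 := by simp [f]
  have hef : inner ℝ f e = (0:ℝ) := by
    simp [e, f, EuclideanSpace.inner_single_left]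
  refine ⟨ZN.KK e, ZN.KK_zonoid e f he hf hef, ZN.pol_zonoid e f he hf hef, ?_⟩
  refine le_csInf ⟨2, by norm_num, LinearEquiv.refl ℝ _, ?_, ?_⟩ ?_
  · intro x hx
    exact ⟨x, ZN.ball_sub_KK e he hx, rfl⟩
  · rintro _ ⟨x, hx, rfl⟩
    refine ⟨(2:ℝ)⁻¹ • x, ?_, ?_⟩
    · rw [mem_closedBall_zero_iff, norm_smul]
      have h1 := ZN.NN_ge e x
      have h2 : ZN.NN e x ≤ 1 := hx
      have h3 : ‖(2:ℝ)⁻¹‖ = 1/2 := by norm_num
      rw [h3]; linarith
    · simp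
  · rintro lam ⟨h1, T, h2, h3⟩
    exact ZN.bm_bound e f he hf hef lam h1 T h2 h3

/-- Negative answer to Q1. -/
theorem result :
    (∀ n : ℕ, 2 ≤ n → ∃ Z : Set (EuclideanSpace ℝ (Fin n)),
      IsZonoid Z ∧ IsZonoid (polar Z) ∧ √(9/8) ≤ bmDist Z (Metric.closedBall 0 1)) ∧
    (∃ ε : ℝ, 0 < ε ∧ {n : ℕ | ∃ Z : Set (EuclideanSpace ℝ (Fin n)),
      IsZonoid Z ∧ IsZonoid (polar Z) ∧ 1 + ε ≤ bmDist Z (Metric.closedBall 0 1)}.Infinite) ∧
    ¬ (∀ Z : (n : ℕ) → Set (EuclideanSpace ℝ (Fin (n + 2))),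
      (∀ n, IsZonoid (Z n) ∧ IsZonoid (polar (Z n))) →
        Tendsto (fun n => bmDist (Z n) (Metric.closedBall 0 1)) atTop (𝓝 1)) := by
  have hgt : (1:ℝ) < √(9/8) := by
    rw [Real.lt_sqrt (by norm_num)]; norm_num
  refine ⟨main, ⟨√(9/8) - 1, by linarith, ?_⟩, ?_⟩
  · refine (Set.infinite_of_injective_forall_mem (f := fun n : ℕ => n + 2) (fun a b h => by
      simpa using h) fun n => ?_)
    obtain ⟨Z, h1, h2, h3⟩ := main (n + 2) (by omega)
    exact ⟨Z, h1, h2, by linarith⟩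
  · intro h
    choose Z h1 h2 h3 using fun n : ℕ => main (n + 2) (by omega)
    have h4 := h Z fun n => ⟨h1 n, h2 n⟩
    have h5 := ge_of_tendsto' h4 h3
    linarith

end Pool.Agent.Results.MP_217de7_gt.BanachMazurGap
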